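import Pool.Agent.V1157.BD.Main

/-!
# The Tate conjecture holds if its defects are bounded

Fix a field `k`, a dimension `n` and a codimension `r` (for the problem: `k` finitely generated,
`n = 2`, `r = 1`, and `H` the `ℓ`-adic cohomology, `ℓ ≠ char k`, with the Galois-invariant classes
as distinguished classes). The following are equivalent:

1. on all varieties of dimension `n` the distinguished classes of codimension `r` are algebraic;
2. the dimensions of the spaces of distinguished classes modulo algebraic classes are bounded, by a
   bound valid for all varieties of dimension `n`;
3. self-correspondences of degree zero act on distinguished classes modulo algebraic classes through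
   commuting operators;
4. these operators satisfy some non-zero multilinear polynomial identity.

Proof: if `t` is a class on `S` which is not algebraic, take a complete intersection `V` in `S^N`;
its `N` projections `p_i` to `S` satisfy `p_i_* p_j^* = 0` modulo algebraic classes, `i ≠ j`. So the
classes `p_i^* t` on `V` are independent modulo algebraic classes, and the correspondences
`p_j^* p_i_*` act on them as matrix units.
-/

open CategoryTheory AlgebraicGeometry

universe u v w

namespace Pool.Agent.Results.MP_89bcae_ag.BoundedDefects

open Pool.Agent.H914 Pool.Agent.H914.VarClass Pool.Agent.H914.VarClass.Obj Pool.Agent.W492.BB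
  Pool.Agent.TH133 Pool.Agent.V1157.BD

theorem result {k : Type u} [Field k] {𝒱 : VarClass k} {C : TheoryData.{u, v, 0} 𝒱 ℚ}
    [IsChowProj C] {K : Type w} [Field K] {H : WeilTheoryData.{u, v, w} C K} [IsWeilProj H]
    (T : ClassFamily H) (n r : ℕ)
    (hP : ∀ (S : 𝒱.Obj) (N : ℕ), S.dim = n → HasPower C n N S) :
    List.TFAE [TateConj T n r, ∃ D, DefectAtMost T n r D, Commuting T n r,
      ∃ (d : ℕ) (c : Equiv.Perm (Fin d) → K), c ≠ 0 ∧ PolyIdentity T n r d c] :=
  main T hP

end Pool.Agent.Results.MP_89bcae_ag.BoundedDefects
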