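import Pool.Agent.V308.KD.Main

/-!
# The Tate conjecture for elliptic surfaces in Galois coverings of the base of degree a power of a prime

Let `X → C` be an elliptic surface with a section over a finite field `k` with `q` elements, of
characteristic at least `5`, and `E : y ^ 2 = x ^ 3 + a x + b` its generic fibre over `K = k(C)`. For a
finite extension `L` of `K`, the function field of `C'` over `k'`, let `X_L` be the elliptic surface over `k'`
which is birational to the fibre product of `X` and `C'` over `C`. By the formula of Shioda and Tate and the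
results of Tate and Milne,

`rk NS(X_L) = 2 + ∑_w (m_w - 1) + rank E(L)`,
`dim H ^ 2(X̄_L, ℚ_ℓ(1)) ^ G = 2 + ∑_w (m_w - 1) + ord L(T, E/L)` at `T = 1 / q'`

(`m_w` the number of the components, over the residue field, of the fibre at `w`), so that the Tate
conjecture for `X_L` says that the rank of `E(L)` is the order of vanishing, and `rank ≤ order` is known.
(For this the semisimplicity of Frobenius at the eigenvalue `1` follows from the equality.)

The theorem computes the multiplicity of the zero `1 / q'` modulo a prime `ℓ ∤ q`, of `L(T, E/L)`, for all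
Galois extensions `L` of `K` of degree a power of `ℓ`, with arbitrary fields of constants, and shows that
one covering decides the question for all coverings which are ramified at most at the same places.
-/

set_option autoImplicit false

open Polynomial FF Module Pool.Agent.W343.BSD Pool.Agent.W313.Gr Pool.Agent.V308.KD

namespace Pool.Agent.Results.MP_89bcae_ag.KidaSurfaces

/-- `[L : K] m(P) + ∑ ([L : K] - [L : K] / e_v) m(P_v)`, where `m` is the multiplicity of the zero `1 / q`
modulo `ℓ`, `P` the `L`-function of `E` over `K`, `P_v` the Euler factors and `e_v` the ramification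
indices of the Galois extension `L` of `K`. -/
noncomputable def kidaNumber {k K : Type} (L : Type) [Field k] [Field K] [Algebra k K] [Field L]
    [Algebra k L] [Algebra K L] (ℓ : ℕ) [Fact ℓ.Prime] (a b : K) (P : ℤ[X]) : ℕ :=
  finrank K L * mult ℓ (Nat.card k) P + ∑ᶠ v : Place k K,
    (finrank K L - finrank K L / ramIndex L v) * mult ℓ (Nat.card k) (S.locFactor v a b)

/-- `L` is the function field of a curve over the finite field `k'`, and a Galois extension of `K` of degree
a power of `ℓ`; if `ℓ` is `2` or `3`, it is not ramified at the places of additive reduction of `E`; and `Q`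
is the `L`-function of `E` over `L` as a polynomial in `T`. -/
structure IsCovering (k K k' L : Type) [Field k] [Field K] [Algebra k K] [Field k'] [Field L]
    [Algebra k' L] [Algebra k k'] [Algebra k L] [Algebra K L] (ℓ : ℕ) (a b : K) (Q : ℤ[X]) :
    Prop where
  curve : IsCurveField k' L
  finite : FiniteDimensional K L
  galois : IsGalois K L
  degree : ∃ s : ℕ, finrank K L = ℓ ^ s
  additive : ℓ ∣ 6 → ∀ v : Place k K, IsAdditive v a b → ramIndex L v = 1
  lfun : S.Lfun k' (algebraMap K L a) (algebraMap K L b) = (Q : PowerSeries ℤ)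

/-- The Tate conjecture for `X_L`, with trivial order and rank: `L(T, E/L)` does not vanish at `1 / q'`, and,
as the rank is at most the order (Tate), `E(L)` is finite. -/
def TateRankZero (k' : Type) {L : Type} [Field k'] [Field L] [Algebra k' L] (a b : L) : Prop :=
  HasOrder k' a b 0 ∧ ((∀ r : ℕ, HasOrder k' a b r → rank a b ≤ r) → rank a b = 0)

/-- Let `k`, `K`, `E`, `P = L(T, E/K)`, `ℓ` be as above.
(1) Let `L` be a Galois extension of `K` as in `IsCovering`, with the field of constants `k'` with `q'`
elements. Only finitely many places are ramified, and the multiplicity `m` of the zero `1 / q'` of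
`L(T, E/L)` modulo `ℓ` is given by `[k' : k] m = kidaNumber`. So the order of vanishing, and the
number of independent Tate classes of `X_L` beyond those of the fibres and the zero section, is at most
`kidaNumber / [k' : k]`.
(2) `m = 0` if and only if this is true over `K` and `ℓ` does not divide the number of nonsingular points
of the reduction of `E` at the places which are ramified in `L`. Then the Tate conjecture holds for
`X_L`, and `E(L)` is finite.
(3) Let `M` be another such extension, at most ramified at places which are ramified in `L`. If `m = 0` for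
`L`, then the same is true for `M`; so the Tate conjecture holds for all the surfaces `X_M`. -/
theorem result (k K : Type) [Field k] [Finite k] [Field K] [Algebra k K] (h6 : (6 : k) ≠ 0)
    (hK : IsCurveField k K) (ℓ : ℕ) [Fact ℓ.Prime] (hℓ : (ℓ : k) ≠ 0) (a b : K)
    (hE : 4 * a ^ 3 + 27 * b ^ 2 ≠ 0) (P : ℤ[X]) (hP : S.Lfun k a b = (P : PowerSeries ℤ))
    (k' L : Type) [Field k'] [Finite k'] [Field L] [Algebra k' L] [Algebra k k'] [Algebra k L]
    [Algebra K L] [IsScalarTower k K L] [IsScalarTower k k' L] (Q : ℤ[X])
    (hL : IsCovering k K k' L ℓ a b Q) :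
    ({v : Place k K | ramIndex L v ≠ 1}.Finite ∧
      finrank k k' * mult ℓ (Nat.card k') Q = kidaNumber (k := k) L ℓ a b P ∧
      ∀ r : ℕ, HasOrder k' (algebraMap K L a) (algebraMap K L b) r →
        finrank k k' * r ≤ kidaNumber (k := k) L ℓ a b P) ∧
    ((mult ℓ (Nat.card k') Q = 0 ↔ mult ℓ (Nat.card k) P = 0 ∧
        ∀ v : Place k K, ramIndex L v ≠ 1 → ¬ (ℓ : ℤ) ∣ numPoints v a b) ∧
      (mult ℓ (Nat.card k') Q = 0 → TateRankZero k' (algebraMap K L a) (algebraMap K L b))) ∧
    ∀ (k'' M : Type) [Field k''] [Finite k''] [Field M] [Algebra k'' M] [Algebra k k'']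
      [Algebra k M] [Algebra K M] [IsScalarTower k K M] [IsScalarTower k k'' M] (R : ℤ[X]),
      IsCovering k K k'' M ℓ a b R →
      (∀ v : Place k K, ramIndex M v ≠ 1 → ramIndex L v ≠ 1) →
      mult ℓ (Nat.card k') Q = 0 →
      mult ℓ (Nat.card k'') R = 0 ∧
        TateRankZero k'' (algebraMap K M a) (algebraMap K M b) := by
  obtain ⟨s, hs⟩ := hL.degree
  have i1 := hL.finite
  have i2 := hL.galois
  obtain ⟨c1, c2, c3, c4, c5, c6⟩ := kida_full k K k' L h6 hK hL.curve ℓ s hℓ hs a b hE
    hL.additive P Q hP hL.lfun
  refine ⟨⟨c1, c2, c5⟩, ⟨c4, fun h => ?_⟩, ?_⟩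
  · obtain ⟨h1, h2⟩ := c4.1 h
    exact c6 h1 h2
  · intro k'' M _ _ _ _ _ _ _ _ _ R hM hram h
    obtain ⟨s', hs'⟩ := hM.degree
    have j1 := hM.finite
    have j2 := hM.galois
    obtain ⟨d1, d2, d3, d4, d5, d6⟩ := kida_full k K k'' M h6 hK hM.curve ℓ s' hℓ hs' a b hE
      hM.additive P R hP hM.lfun
    obtain ⟨h1, h2⟩ := c4.1 h
    have h3 : ∀ v : Place k K, ramIndex M v ≠ 1 → ¬ (ℓ : ℤ) ∣ numPoints v a b :=
      fun v hv => h2 v (hram v hv)
    exact ⟨d4.2 ⟨h1, h3⟩, d6 h1 h3⟩

end Pool.Agent.Results.MP_89bcae_ag.KidaSurfaces
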