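import Mathlib
import Pool.Agent.TH115.GD.Defs
import Pool.Agent.TH115.ID.Defs
import Pool.Agent.TH115.ID.Gener

/-!
# The Tate conjecture at 2 for elliptic surfaces with a section of order two and further sections

Let `k` be a field of characteristic different from 2 (for example finitely generated over its
prime field), `k'` a separable closure, `K = k(t)`, `F = k'(t)`, and

`E : y² = x (x² + a x + b)`, `d = a² - 4 b`,

with polynomials `a`, `b` over `k`. `TateAtTwo` says that all the classes in `V₂ Sel(E / F)` which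
are fixed by the Galois group of `k` come from `E(K)`; as `Br(X ⊗ k') = Ш(E / F)` up to `p`-torsion
(Grothendieck), this is the Tate conjecture for divisors at the prime 2 on the elliptic surface `X`
over the projective line with generic fibre `E`.

Suppose that neither of `b`, `d` is a constant times a square or a norm of a polynomial over a
quadratic extension of `k`, for instance that both have odd degree.

1. The conjecture holds if for each factorization `b = A B`, with `A` monic and squarefree, `A = 1`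
or `B` is a constant times a square or `e A + a + B / e` is a square for some constant `e` (then
there is a point with `x = e A`), and the same for `- 2 a`, `d` in place of `a`, `b`, and if the
irreducible factors of `b d` are separable.
2. This covers surfaces where `b`, and also `d`, have up to three irreducible factors.
3. Families with free parameters: `b = A₁ A₂`, `a = s² - A₁ - A₂`; `b = A₁ A₂ A₃`,
`4 a = 1 + ∑ A_i² - 2 ∑ A_i - 2 ∑ A_i A_j`; and a family with four parameters where both `b` and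
`d` have two factors.
4. Examples over the rational numbers: `y² = x (x² + 2 x + 6 t (t ^ (2 j + 2) - 6 t - 2))`, with the
section `(6 t, 6 t ^ (j + 2))`, and `y² = x (x² + 5 x + (4 t ^ n + 3) (t ^ n - 2) (t ^ n + 2))`, `n`
odd, with the sections `x = 4 t ^ n + 3`, `x = t ^ n - 2` and `x = t ^ n + 2`.
-/

set_option autoImplicit false
set_option linter.all false

namespace Pool.Agent.Results.MP_89bcae_ag.SeveralFactors

open Polynomial WeierstrassCurve WeierstrassCurve.Affine Pool.Agent.TH115.GD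

section side

variable {k : Type} [Field k]

/-- For every monic squarefree divisor `A` of `b = A B`, either `A` is `1`, or `B` is a constant
times a square, or the curve `y ^ 2 = x (x ^ 2 + a x + b)` has an integral point with `x = e A`,
`e` a constant: its `y` is `x s`. -/
def HasPoints (a b : k[X]) : Prop :=
  ∀ A B : k[X], A.Monic → Squarefree A → b = A * B →
    A = 1 ∨ (∃ (u : k) (V : k[X]), B = C u * V ^ 2) ∨
    ∃ (e : k) (s : k[X]), e ≠ 0 ∧ C e * A + a + C e⁻¹ * B = s ^ 2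

theorem split_prime {A R M N : k[X]} (hA : Irreducible A) (h : A * R = M * N) :
    (∃ M', M = A * M' ∧ R = M' * N) ∨ (∃ N', N = A * N' ∧ R = M * N') := by
  have hd : A ∣ M * N := ⟨R, h.symm⟩
  rcases hA.prime.dvd_or_dvd hd with ⟨M', rfl⟩ | ⟨N', rfl⟩
  · left
    refine ⟨M', rfl, mul_left_cancel₀ hA.ne_zero ?_⟩
    rw [h]; ring
  · right
    refine ⟨N', rfl, mul_left_cancel₀ hA.ne_zero ?_⟩
    rw [h]; ring

theorem units_of {M N : k[X]} (h : 1 = M * N) : ∃ c : k, c ≠ 0 ∧ M = C c ∧ N = C c⁻¹ := by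
  have hM : IsUnit M := IsUnit.of_mul_eq_one _ h.symm
  obtain ⟨c, hc, rfl⟩ := Polynomial.isUnit_iff.1 hM
  have hc0 : c ≠ 0 := hc.ne_zero
  refine ⟨c, hc0, rfl, ?_⟩
  apply mul_left_cancel₀ (C_ne_zero.2 hc0)
  rw [← h, ← C_mul, mul_inv_cancel₀ hc0, C_1]

/-- one irreducible factor -/
theorem hasPoints_one {a b π : k[X]} {u : k} {m : ℕ} (hu : u ≠ 0) (hπ : Irreducible π)
    (hb : b = C u * π ^ (2 * m + 1)) : HasPoints a b := by
  intro A B hA hs hAB
  have hdv : A ∣ C u * π ^ (2 * m + 1) := ⟨B, by rw [← hAB, hb]⟩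
  rcases monic_dvd_pow hu hπ hA hs hdv with h1 | h1
  · exact Or.inl h1
  · refine Or.inr (Or.inl ⟨u * π.leadingCoeff, π ^ m, ?_⟩)
    have hl : π.leadingCoeff ≠ 0 := leadingCoeff_ne_zero.2 hπ.ne_zero
    have hA0 : A ≠ 0 := hA.ne_zero
    apply mul_left_cancel₀ hA0
    rw [← hAB, hb, h1]
    have e1 : (C π.leadingCoeff⁻¹ : k[X]) * C (u * π.leadingCoeff) = C u := by
      rw [← C_mul]
      congr 1
      field_simp
    calc C u * π ^ (2 * m + 1) = C u * (π * (π ^ m) ^ 2) := by ring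
      _ = (C π.leadingCoeff⁻¹ * C (u * π.leadingCoeff)) * (π * (π ^ m) ^ 2) := by rw [e1]
      _ = _ := by ring

/-- two irreducible factors -/
theorem hasPoints_two {a A₁ A₂ s : k[X]} (h₁ : Irreducible A₁) (h₂ : Irreducible A₂)
    (hs : A₁ + a + A₂ = s ^ 2) : HasPoints a (A₁ * A₂) := by
  intro M N hM _ hMN
  have key : ∀ (c : k), c ≠ 0 → ∀ P Q : k[X], P + a + Q = s ^ 2 →
      ∃ (e : k) (s : k[X]), e ≠ 0 ∧ C e * (P * C c) + a + C e⁻¹ * (Q * C c⁻¹) = s ^ 2 := by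
    intro c hc P Q h
    refine ⟨c⁻¹, s, inv_ne_zero hc, ?_⟩
    rw [← h]
    have e1 : (C c⁻¹ : k[X]) * C c = 1 := by rw [← C_mul, inv_mul_cancel₀ hc, C_1]
    rw [inv_inv]
    linear_combination (P + Q) * e1
  rcases split_prime h₁ hMN with ⟨M', rfl, e2⟩ | ⟨N', rfl, e2⟩
  · rw [← mul_one A₂] at e2
    rcases split_prime h₂ e2 with ⟨M'', rfl, e3⟩ | ⟨N'', rfl, e3⟩
    · obtain ⟨c, hc, rfl, rfl⟩ := units_of e3
      exact Or.inr (Or.inl ⟨c⁻¹, 1, by rw [one_pow, mul_one]⟩)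
    · obtain ⟨c, hc, rfl, rfl⟩ := units_of e3
      exact Or.inr (Or.inr (key c hc A₁ A₂ hs))
  · rw [← mul_one A₂] at e2
    rcases split_prime h₂ e2 with ⟨M'', rfl, e3⟩ | ⟨N'', rfl, e3⟩
    · obtain ⟨c, hc, rfl, rfl⟩ := units_of e3
      exact Or.inr (Or.inr (key c hc A₂ A₁ (by rw [← hs]; ring)))
    · obtain ⟨c, hc, rfl, rfl⟩ := units_of e3
      left
      have h1 : c = 1 := by
        have h2 := hM.leadingCoeff
        rwa [leadingCoeff_C] at h2
      rw [h1, C_1]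

/-- three irreducible factors -/
theorem hasPoints_three {a A₁ A₂ A₃ s₁ s₂ s₃ : k[X]} (h₁ : Irreducible A₁) (h₂ : Irreducible A₂)
    (h₃ : Irreducible A₃) (e₁ : A₁ + a + A₂ * A₃ = s₁ ^ 2) (e₂ : A₂ + a + A₁ * A₃ = s₂ ^ 2)
    (e₃ : A₃ + a + A₁ * A₂ = s₃ ^ 2) : HasPoints a (A₁ * (A₂ * A₃)) := by
  intro M N hM _ hMN
  have key : ∀ (c : k), c ≠ 0 → ∀ M N P Q s : k[X], M = P * C c → N = Q * C c⁻¹ →
      P + a + Q = s ^ 2 → ∃ (e : k) (s : k[X]), e ≠ 0 ∧ C e * M + a + C e⁻¹ * N = s ^ 2 := by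
    intro c hc M N P Q s hM hN h
    refine ⟨c⁻¹, s, inv_ne_zero hc, ?_⟩
    rw [← h, hM, hN]
    have e1 : (C c⁻¹ : k[X]) * C c = 1 := by rw [← C_mul, inv_mul_cancel₀ hc, C_1]
    rw [inv_inv]
    linear_combination (P + Q) * e1
  rcases split_prime h₁ hMN with ⟨M', rfl, e4⟩ | ⟨N', rfl, e4⟩
  · rcases split_prime h₂ e4 with ⟨M', rfl, e5⟩ | ⟨N', rfl, e5⟩
    · rw [← mul_one A₃] at e5
      rcases split_prime h₃ e5 with ⟨M', rfl, e6⟩ | ⟨N', rfl, e6⟩
      · obtain ⟨c, hc, rfl, rfl⟩ := units_of e6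
        exact Or.inr (Or.inl ⟨c⁻¹, 1, by rw [one_pow, mul_one]⟩)
      · obtain ⟨c, hc, rfl, rfl⟩ := units_of e6
        exact Or.inr (Or.inr (key c hc _ _ (A₁ * A₂) A₃ s₃ (by ring) rfl (by rw [← e₃]; ring)))
    · rw [← mul_one A₃] at e5
      rcases split_prime h₃ e5 with ⟨M', rfl, e6⟩ | ⟨N', rfl, e6⟩
      · obtain ⟨c, hc, rfl, rfl⟩ := units_of e6
        exact Or.inr (Or.inr (key c hc _ _ (A₁ * A₃) A₂ s₂ (by ring) rfl (by rw [← e₂]; ring)))
      · obtain ⟨c, hc, rfl, rfl⟩ := units_of e6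
        exact Or.inr (Or.inr (key c hc _ _ A₁ (A₂ * A₃) s₁ rfl (by ring) e₁))
  · rcases split_prime h₂ e4 with ⟨M', rfl, e5⟩ | ⟨N', rfl, e5⟩
    · rw [← mul_one A₃] at e5
      rcases split_prime h₃ e5 with ⟨M', rfl, e6⟩ | ⟨N', rfl, e6⟩
      · obtain ⟨c, hc, rfl, rfl⟩ := units_of e6
        exact Or.inr (Or.inr (key c hc _ _ (A₂ * A₃) A₁ s₁ (by ring) rfl (by rw [← e₁]; ring)))
      · obtain ⟨c, hc, rfl, rfl⟩ := units_of e6
        exact Or.inr (Or.inr (key c hc _ _ A₂ (A₁ * A₃) s₂ rfl (by ring) e₂))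
    · rw [← mul_one A₃] at e5
      rcases split_prime h₃ e5 with ⟨M', rfl, e6⟩ | ⟨N', rfl, e6⟩
      · obtain ⟨c, hc, rfl, rfl⟩ := units_of e6
        exact Or.inr (Or.inr (key c hc _ _ A₃ (A₁ * A₂) s₃ rfl (by ring) e₃))
      · obtain ⟨c, hc, rfl, rfl⟩ := units_of e6
        left
        have h1 : c = 1 := by
          have h2 := hM.leadingCoeff
          rwa [leadingCoeff_C] at h2
        rw [h1, C_1]

end side

section points

variable {k k' K F : Type} [Field k] [Field k'] [Algebra k k'] [Field K] [Algebra k[X] K]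
    [Field F] [Algebra k'[X] F] [IsFractionRing k'[X] F] [Algebra K F]

theorem nons_pt {K : Type} [Field K] (h2 : (2 : K) ≠ 0) {a b x y : K} (hd : a ^ 2 - 4 * b ≠ 0)
    (hx : x ≠ 0) (hxy : y ^ 2 = x * (x ^ 2 + a * x + b)) :
    ((crvT a b).baseChange K).toAffine.Nonsingular x y := by
  rw [Affine.nonsingular_iff, Affine.equation_iff]
  have e1 : ((crvT a b).baseChange K).toAffine.a₁ = 0 := map_zero _
  have e2 : ((crvT a b).baseChange K).toAffine.a₂ = a := rfl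
  have e3 : ((crvT a b).baseChange K).toAffine.a₃ = 0 := map_zero _
  have e4 : ((crvT a b).baseChange K).toAffine.a₄ = b := rfl
  have e6 : ((crvT a b).baseChange K).toAffine.a₆ = 0 := map_zero _
  rw [e1, e2, e3, e4, e6]
  refine ⟨by linear_combination hxy, ?_⟩
  by_contra hcon
  push Not at hcon
  obtain ⟨h3, h4⟩ := hcon
  have hy : y = 0 := by
    have h5 : 2 * y = 0 := by linear_combination h4
    exact (mul_eq_zero.1 h5).resolve_left h2
  rw [hy] at hxy h3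
  have h5 : x ^ 2 + a * x + b = 0 := by
    have h6 : x * (x ^ 2 + a * x + b) = 0 := by rw [← hxy]; ring
    exact (mul_eq_zero.1 h6).resolve_left hx
  have h6 : 2 * x + a = 0 := by
    have h7 : x * (2 * x + a) = 0 := by linear_combination -h3 - h5
    exact (mul_eq_zero.1 h7).resolve_left hx
  apply hd
  linear_combination (a - 2 * x) * h6 - 4 * h5 + 4 * x * h6

/-- The elementary condition is sufficient. -/
theorem enough_of_points (hT : IsTower k k' K F) (h2 : (2 : k) ≠ 0) {a b : k[X]} (hb : b ≠ 0)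
    (hd : a ^ 2 - 4 * b ≠ 0) (h : HasPoints a b) : EnoughPointsT K F a b := by
  haveI := hT.sep
  haveI := hT.fracK
  haveI : IsSepClosed k' := IsSepClosure.sep_closed k
  have hKF := hT.map
  have inj := IsFractionRing.injective k[X] K
  have h2' : (2 : k') ≠ 0 := by
    rw [← map_ofNat (algebraMap k k') 2]
    exact (_root_.map_ne_zero _).2 h2
  haveI : NeZero ((2 : ℕ) : k') := ⟨by exact_mod_cast h2'⟩
  have h2K : (2 : K) ≠ 0 := by
    have h3 : algebraMap k[X] K (C 2) ≠ 0 := by simpa using h2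
    have h4 : algebraMap k[X] K (C 2) = 2 := by
      rw [show (C (2 : k) : k[X]) = 2 from rfl, map_ofNat]
    rwa [h4] at h3
  have hbK : algebraMap k[X] K b ≠ 0 := by simpa using hb
  have hdK : algebraMap k[X] K a ^ 2 - 4 * algebraMap k[X] K b ≠ 0 := by
    have h3 : algebraMap k[X] K (a ^ 2 - 4 * b) ≠ 0 := by
      intro h0
      exact hd (inj (by rw [h0, map_zero]))
    rwa [map_sub, map_mul, map_pow, map_ofNat] at h3
  have hsq : ∀ c : k, c ≠ 0 → ∃ s : F, s ≠ 0 ∧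
      s ^ 2 = algebraMap K F (algebraMap k[X] K (C c)) := by
    intro c hc
    obtain ⟨s, hs⟩ := IsSepClosed.exists_pow_nat_eq (algebraMap k k' c) 2
    have hs0 : s ≠ 0 := by
      rintro rfl
      rw [zero_pow two_ne_zero] at hs
      exact (_root_.map_ne_zero _).2 hc hs.symm
    refine ⟨algebraMap k'[X] F (C s), by simpa using hs0, ?_⟩
    rw [← map_pow, ← C_pow, hs, hKF, map_C]
  intro A hA hs hAb
  obtain ⟨B, hB⟩ := hAb
  rcases h A B hA hs hB with rfl | ⟨u, V, rfl⟩ | ⟨e, s, he, hes⟩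
  · refine ⟨0, 1, one_ne_zero, ?_⟩
    show algebraMap K F (algebraMap k[X] K 1) = 1 ^ 2 * algebraMap K F 1
    rw [map_one, one_pow, one_mul]
  · have hV : V ≠ 0 := by
      rintro rfl
      apply hb
      rw [hB]
      ring
    have hu : u ≠ 0 := by
      rintro rfl
      apply hb
      rw [hB, C_0]
      ring
    obtain ⟨r, hr0, hr⟩ := hsq u⁻¹ (inv_ne_zero hu)
    have hVF : algebraMap K F (algebraMap k[X] K V) ≠ 0 := by simpa using hV
    refine ⟨Point.some 0 0 (nons_zero _ hbK), r / algebraMap K F (algebraMap k[X] K V),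
      div_ne_zero hr0 hVF, ?_⟩
    have hd' : dT (algebraMap k[X] K b)
        (Point.some 0 0 (nons_zero (algebraMap k[X] K a) hbK)) = algebraMap k[X] K b := by
      simp [dT]
    rw [hd', div_pow, hr, hB]
    have e1 : algebraMap K F (algebraMap k[X] K (C u⁻¹)) *
        algebraMap K F (algebraMap k[X] K (C u)) = 1 := by
      rw [← map_mul, ← map_mul, ← C_mul, inv_mul_cancel₀ hu, C_1, map_one, map_one]
    simp only [map_mul, map_pow]
    obtain ⟨w, hw⟩ : ∃ w, w = algebraMap K F (algebraMap k[X] K (C u⁻¹)) := ⟨_, rfl⟩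
    rw [← hw] at e1 ⊢
    field_simp
    linear_combination (-algebraMap K F (algebraMap k[X] K A)) * e1
  · have hx0 : C e * A ≠ 0 := mul_ne_zero (C_ne_zero.2 he) hA.ne_zero
    have hxK : algebraMap k[X] K (C e * A) ≠ 0 := by
      intro h0
      exact hx0 (inj (by rw [h0, map_zero]))
    have hxy : (C e * A * s) ^ 2 = C e * A * ((C e * A) ^ 2 + a * (C e * A) + b) := by
      have e1 : (C e : k[X]) * C e⁻¹ = 1 := by rw [← C_mul, mul_inv_cancel₀ he, C_1]
      rw [mul_pow, ← hes, hB]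
      linear_combination (C e * A ^ 2 * B) * e1
    have hxyK := congrArg (algebraMap k[X] K) hxy
    rw [map_pow, map_mul _ (C e * A) s, map_mul _ (C e * A), map_add, map_add, map_pow,
      map_mul _ a] at hxyK
    have hn := nons_pt h2K hdK hxK hxyK
    obtain ⟨r, hr0, hr⟩ := hsq e⁻¹ (inv_ne_zero he)
    refine ⟨Point.some _ _ hn, r, hr0, ?_⟩
    have hd' : dT (algebraMap k[X] K b) (Point.some _ _ hn) = algebraMap k[X] K (C e * A) := by
      simp only [dT, hxK, if_false]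
    rw [hd', hr, ← map_mul, ← map_mul, ← mul_assoc, ← C_mul, inv_mul_cancel₀ he, C_1, one_mul]

end points

section conditions

variable {k : Type} [Field k]

/-- a separable irreducible polynomial -/
def Good (π : k[X]) : Prop := Irreducible π ∧ π.Separable

/-- `b` is a constant times an odd power of a separable irreducible polynomial, or the product of
two or three of them such that the curve `y ^ 2 = x (x ^ 2 + a x + b)` has points with the
abscissas `A₁`, respectively `A₁`, `A₂`, `A₃`: `x = A₁` is the abscissa of the point `(A₁, A₁ s)` if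
and only if `A₁ + a + b / A₁ = s ^ 2`. -/
def Side (a b : k[X]) : Prop :=
  (∃ (u : k) (π : k[X]) (m : ℕ), u ≠ 0 ∧ Good π ∧ b = C u * π ^ (2 * m + 1)) ∨
  (∃ A₁ A₂ s : k[X], Good A₁ ∧ Good A₂ ∧ b = A₁ * A₂ ∧ A₁ + a + A₂ = s ^ 2) ∨
  (∃ A₁ A₂ A₃ s₁ s₂ s₃ : k[X], Good A₁ ∧ Good A₂ ∧ Good A₃ ∧ b = A₁ * (A₂ * A₃) ∧
    A₁ + a + A₂ * A₃ = s₁ ^ 2 ∧ A₂ + a + A₁ * A₃ = s₂ ^ 2 ∧ A₃ + a + A₁ * A₂ = s₃ ^ 2)

theorem side_points {a b : k[X]} (h : Side a b) : HasPoints a b := by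
  rcases h with ⟨u, π, m, hu, hπ, hb⟩ | ⟨A₁, A₂, s, h₁, h₂, rfl, hs⟩ |
    ⟨A₁, A₂, A₃, s₁, s₂, s₃, h₁, h₂, h₃, rfl, e₁, e₂, e₃⟩
  · exact hasPoints_one hu hπ.1 hb
  · exact hasPoints_two h₁.1 h₂.1 hs
  · exact hasPoints_three h₁.1 h₂.1 h₃.1 e₁ e₂ e₃

theorem side_sep {a b : k[X]} (h : Side a b) {q : k[X]} (hq : Irreducible q) (hd : q ∣ b) :
    q.Separable := by
  rcases h with ⟨u, π, m, hu, hπ, rfl⟩ | ⟨A₁, A₂, s, h₁, h₂, rfl, hs⟩ |
    ⟨A₁, A₂, A₃, s₁, s₂, s₃, h₁, h₂, h₃, rfl, -, -, -⟩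
  · have hCu : IsUnit (C u) := isUnit_C.2 (isUnit_iff_ne_zero.2 hu)
    have h1 : q ∣ π ^ (2 * m + 1) := (hCu.dvd_mul_left).1 hd
    exact hπ.2.of_dvd (hq.prime.dvd_of_dvd_pow h1)
  · rcases hq.prime.dvd_or_dvd hd with h | h
    · exact h₁.2.of_dvd h
    · exact h₂.2.of_dvd h
  · rcases hq.prime.dvd_or_dvd hd with h | h
    · exact h₁.2.of_dvd h
    · rcases hq.prime.dvd_or_dvd h with h | h
      · exact h₂.2.of_dvd h
      · exact h₃.2.of_dvd h

theorem side_ne {a b : k[X]} (h : Side a b) : b ≠ 0 := by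
  rcases h with ⟨u, π, m, hu, hπ, rfl⟩ | ⟨A₁, A₂, s, h₁, h₂, rfl, hs⟩ |
    ⟨A₁, A₂, A₃, s₁, s₂, s₃, h₁, h₂, h₃, rfl, -, -, -⟩
  · exact mul_ne_zero (C_ne_zero.2 hu) (pow_ne_zero _ hπ.1.ne_zero)
  · exact mul_ne_zero h₁.1.ne_zero h₂.1.ne_zero
  · exact mul_ne_zero h₁.1.ne_zero (mul_ne_zero h₂.1.ne_zero h₃.1.ne_zero)

/-- the polynomial `a` for which all the divisors of `A₁ A₂ A₃` are abscissas -/
noncomputable def aThree (A₁ A₂ A₃ : k[X]) : k[X] :=
  C (4 : k)⁻¹ * (1 + A₁ ^ 2 + A₂ ^ 2 + A₃ ^ 2 - 2 * (A₁ + A₂ + A₃ + A₁ * A₂ + A₁ * A₃ + A₂ * A₃))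

theorem side_three (h2 : (2 : k) ≠ 0) {A₁ A₂ A₃ : k[X]} (h₁ : Good A₁) (h₂ : Good A₂)
    (h₃ : Good A₃) : Side (aThree A₁ A₂ A₃) (A₁ * (A₂ * A₃)) := by
  have h4 : (4 : k) ≠ 0 := by
    have h5 : (4 : k) = 2 * 2 := by norm_num
    rw [h5]
    exact mul_ne_zero h2 h2
  have e4 : (C (4 : k)⁻¹ : k[X]) * 4 = 1 := by
    rw [show (4 : k[X]) = C 4 from rfl, ← C_mul, inv_mul_cancel₀ h4, C_1]
  have e2 : (C (2 : k)⁻¹ : k[X]) ^ 2 = C (4 : k)⁻¹ := by
    rw [← C_pow]
    congr 1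
    rw [inv_pow]
    norm_num
  refine Or.inr (Or.inr ⟨A₁, A₂, A₃, C (2 : k)⁻¹ * (1 + A₁ - A₂ - A₃),
    C (2 : k)⁻¹ * (1 + A₂ - A₁ - A₃), C (2 : k)⁻¹ * (1 + A₃ - A₁ - A₂), h₁, h₂, h₃, rfl,
    ?_, ?_, ?_⟩)
  · rw [mul_pow, e2, aThree]
    linear_combination (-(A₁ + A₂ * A₃)) * e4
  · rw [mul_pow, e2, aThree]
    linear_combination (-(A₂ + A₁ * A₃)) * e4
  · rw [mul_pow, e2, aThree]
    linear_combination (-(A₃ + A₁ * A₂)) * e4

/-- The data of a surface for which `b = A B` and `a ^ 2 - 4 b = D₁ D₂` are products of two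
factors, given by four arbitrary polynomials `u₁`, `u₂`, `u₃`, `u₄`. -/
structure TwoTwo (u₁ u₂ u₃ u₄ A B D₁ D₂ s a : k[X]) : Prop where
  hA : 4 * A = 1 + u₁ * u₂
  hB : 4 * B = 1 + u₃ * u₄
  hs : 4 * s = u₂ * u₄ - u₁ * u₃
  ha : a = s ^ 2 - A - B
  hD₁ : 4 * D₁ = 4 * s ^ 2 + (u₁ - u₄) * (u₃ - u₂)
  hD₂ : 4 * D₂ = 4 * s ^ 2 - (u₁ + u₄) * (u₂ + u₃)

theorem side_two_two (h2 : (2 : k) ≠ 0) {u₁ u₂ u₃ u₄ A B D₁ D₂ s a : k[X]}
    (h : TwoTwo u₁ u₂ u₃ u₄ A B D₁ D₂ s a) (gA : Good A) (gB : Good B) (g₁ : Good D₁)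
    (g₂ : Good D₂) : Side a (A * B) ∧ Side (-2 * a) (a ^ 2 - 4 * (A * B)) := by
  obtain ⟨hA, hB, hs, ha, hD₁, hD₂⟩ := h
  have h4 : (4 : k) ≠ 0 := by
    have h5 : (4 : k) = 2 * 2 := by norm_num
    rw [h5]
    exact mul_ne_zero h2 h2
  obtain ⟨c, hc⟩ : ∃ c : k[X], c * 4 = 1 :=
    ⟨C (4 : k)⁻¹, by rw [show (4 : k[X]) = C 4 from rfl, ← C_mul, inv_mul_cancel₀ h4, C_1]⟩
  have eA : A = c * (1 + u₁ * u₂) := by linear_combination c * hA - A * hc
  have eB : B = c * (1 + u₃ * u₄) := by linear_combination c * hB - B * hc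
  have es : s = c * (u₂ * u₄ - u₁ * u₃) := by linear_combination c * hs - s * hc
  have e1 : D₁ = s ^ 2 + c * ((u₁ - u₄) * (u₃ - u₂)) := by
    linear_combination c * hD₁ - (D₁ - s ^ 2) * hc
  have e2 : D₂ = s ^ 2 - c * ((u₁ + u₄) * (u₂ + u₃)) := by
    linear_combination c * hD₂ - (D₂ - s ^ 2) * hc
  have hd : a ^ 2 - 4 * (A * B) = D₁ * D₂ := by
    have e3 : s ^ 2 = c ^ 2 * (u₂ * u₄ - u₁ * u₃) ^ 2 := by rw [es]; ring
    rw [ha, e1, e2, eA, eB]
    linear_combination (-(s ^ 2)) * hc - e3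
  refine ⟨Or.inr (Or.inl ⟨A, B, s, gA, gB, rfl, by rw [ha]; ring⟩),
    Or.inr (Or.inl ⟨D₁, D₂, 1, g₁, g₂, hd, ?_⟩)⟩
  rw [ha, e1, e2, eA, eB]
  linear_combination hc

end conditions

section main

variable {k k' K F : Type} [Field k] [Field k'] [Algebra k k'] [Field K] [Algebra k[X] K]
    [Field F] [Algebra k'[X] F] [IsFractionRing k'[X] F] [Algebra K F]

/-- the criterion -/
theorem criterion (hT : IsTower k k' K F) (h2 : (2 : k) ≠ 0) {a b : k[X]} (hb : b ≠ 0)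
    (hd : a ^ 2 - 4 * b ≠ 0)
    (hsep : ∀ π : k[X], Irreducible π → π ∣ b * (a ^ 2 - 4 * b) → π.Separable)
    (hNb : Odd b.natDegree ∨ NotNorm b)
    (hNd : Odd (a ^ 2 - 4 * b).natDegree ∨ NotNorm (a ^ 2 - 4 * b))
    (hA : HasPoints a b) (hB : HasPoints (-2 * a) (a ^ 2 - 4 * b)) :
    TateAtTwo (F := F) k' (crvT (algebraMap k[X] K a) (algebraMap k[X] K b)) := by
  refine mainT hT h2 hb hd hsep (hNb.elim notNorm_of_odd id) (hNd.elim notNorm_of_odd id)
    (enough_of_points hT h2 hb hd hA) (enough_of_points hT h2 hd ?_ hB)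
  have h4 : (16 : k[X]) ≠ 0 := by
    have h5 : (16 : k) ≠ 0 := by
      rw [show (16 : k) = 2 ^ 4 by norm_num]
      exact pow_ne_zero _ h2
    rw [show (16 : k[X]) = C 16 from rfl]
    exact C_ne_zero.2 h5
  have e : (-2 * a) ^ 2 - 4 * (a ^ 2 - 4 * b) = 16 * b := by ring
  rw [e]
  exact mul_ne_zero h4 hb

/-- up to three irreducible factors on both sides -/
theorem sides (hT : IsTower k k' K F) (h2 : (2 : k) ≠ 0) {a b : k[X]} (hA : Side a b)
    (hB : Side (-2 * a) (a ^ 2 - 4 * b)) (hNb : Odd b.natDegree ∨ NotNorm b)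
    (hNd : Odd (a ^ 2 - 4 * b).natDegree ∨ NotNorm (a ^ 2 - 4 * b)) :
    TateAtTwo (F := F) k' (crvT (algebraMap k[X] K a) (algebraMap k[X] K b)) := by
  refine criterion hT h2 (side_ne hA) (side_ne hB) ?_ hNb hNd (side_points hA) (side_points hB)
  intro q hq hd
  rcases hq.prime.dvd_or_dvd hd with h | h
  · exact side_sep hA hq h
  · exact side_sep hB hq h

end main

section explicit

theorem irr_of_reverse {k : Type} [Field k] {f : k[X]} (h0 : f.coeff 0 ≠ 0)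
    (h : Irreducible f.reverse) : Irreducible f := by
  refine ⟨?_, ?_⟩
  · intro hu
    obtain ⟨c, hc, rfl⟩ := Polynomial.isUnit_iff.1 hu
    rw [reverse_C] at h
    exact h.not_isUnit (isUnit_C.2 hc)
  · intro p q hpq
    have h1 : reverse f = reverse p * reverse q := by rw [hpq, reverse_mul_of_domain]
    have hp0 : p.coeff 0 ≠ 0 := by
      intro h2
      apply h0
      rw [hpq, mul_coeff_zero, h2, zero_mul]
    have hq0 : q.coeff 0 ≠ 0 := by
      intro h2
      apply h0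
      rw [hpq, mul_coeff_zero, h2, mul_zero]
    have key : ∀ r : k[X], r.coeff 0 ≠ 0 → IsUnit (reverse r) → IsUnit r := by
      intro r hr hu
      have h3 : r.natTrailingDegree = 0 := natTrailingDegree_eq_zero.2 (Or.inr hr)
      have h4 := reverse_natDegree r
      rw [h3, Nat.sub_zero, natDegree_eq_zero_of_isUnit hu] at h4
      rw [eq_C_of_natDegree_eq_zero h4.symm]
      exact isUnit_C.2 (isUnit_iff_ne_zero.2 hr)
    rcases h.isUnit_or_isUnit h1 with h5 | h5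
    · exact Or.inl (key p hp0 h5)
    · exact Or.inr (key q hq0 h5)

/-- Eisenstein's criterion over `ℤ` for monic polynomials -/
theorem eis {f : ℤ[X]} {p : ℕ} (hp : p.Prime) (hm : f.Monic) (hdeg : 0 < f.natDegree)
    (hc : ∀ n < f.natDegree, (p : ℤ) ∣ f.coeff n) (h0 : ¬ ((p : ℤ) ^ 2) ∣ f.coeff 0) :
    Irreducible (f.map (Int.castRingHom ℚ)) := by
  have hpi : Prime (p : ℤ) := Nat.prime_iff_prime_int.1 hp
  have hP : (Ideal.span {(p : ℤ)}).IsPrime :=
    (Ideal.span_singleton_prime hpi.ne_zero).2 hpi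
  have h1 : Irreducible f := by
    refine irreducible_of_eisenstein_criterion hP ?_ ?_ ?_ ?_ hm.isPrimitive
    · rw [hm.leadingCoeff, Ideal.mem_span_singleton]
      intro h
      exact hpi.not_unit (isUnit_of_dvd_one h)
    · intro n hn
      rw [Ideal.mem_span_singleton]
      refine hc n ?_
      rw [degree_eq_natDegree hm.ne_zero] at hn
      exact_mod_cast hn
    · exact natDegree_pos_iff_degree_pos.1 hdeg
    · rw [Ideal.span_singleton_pow, Ideal.mem_span_singleton]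
      exact h0
  exact (IsPrimitive.Int.irreducible_iff_irreducible_map_cast hm.isPrimitive).1 h1

theorem irr_B (j : ℕ) : Irreducible (X ^ (2 * j + 2) - C 6 * X - C 2 : ℚ[X]) := by
  have hd1 : (C 6 * X + C 2 : ℤ[X]).natDegree < 2 * j + 2 := by
    have : (C 6 * X + C 2 : ℤ[X]).natDegree ≤ 1 := by compute_degree
    omega
  have hm : (X ^ (2 * j + 2) - (C 6 * X + C 2) : ℤ[X]).Monic := by
    refine (monic_X_pow _).sub_of_left ?_
    rw [degree_X_pow]
    exact degree_le_natDegree.trans_lt (by exact_mod_cast hd1)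
  have hn : (X ^ (2 * j + 2) - (C 6 * X + C 2) : ℤ[X]).natDegree = 2 * j + 2 := by
    rw [natDegree_sub_eq_left_of_natDegree_lt (by rw [natDegree_X_pow]; exact hd1),
      natDegree_X_pow]
  have h := eis Nat.prime_two hm (by rw [hn]; omega) (by
    intro n hlt
    rw [hn] at hlt
    rw [coeff_sub, coeff_X_pow, if_neg (by omega), coeff_add, coeff_C_mul, coeff_X, coeff_C]
    split_ifs <;> norm_num) (by
    rw [coeff_sub, coeff_X_pow, if_neg (by omega), coeff_add, coeff_C_mul, coeff_X, coeff_C]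
    norm_num)
  have e : (X ^ (2 * j + 2) - (C 6 * X + C 2) : ℤ[X]).map (Int.castRingHom ℚ) =
      X ^ (2 * j + 2) - C 6 * X - C 2 := by
    simp only [Polynomial.map_sub, Polynomial.map_add, Polynomial.map_mul, Polynomial.map_pow,
      map_X, map_C]
    norm_num
    ring
  rwa [e] at h

theorem irr_D (j : ℕ) : Irreducible (C (-6) * X ^ (2 * j + 3) + C 36 * X ^ 2 + C 12 * X ^ 1 +
    C 1 * X ^ 0 : ℚ[X]) := by
  have hd1 : (C 12 * X ^ (2 * j + 2) + C 36 * X ^ (2 * j + 1) - C 6 : ℤ[X]).natDegree <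
      2 * j + 3 := by
    have : (C 12 * X ^ (2 * j + 2) + C 36 * X ^ (2 * j + 1) - C 6 : ℤ[X]).natDegree ≤ 2 * j + 2 := by
      compute_degree
    omega
  have hm : (X ^ (2 * j + 3) + (C 12 * X ^ (2 * j + 2) + C 36 * X ^ (2 * j + 1) - C 6) :
      ℤ[X]).Monic := by
    refine (monic_X_pow _).add_of_left ?_
    rw [degree_X_pow]
    exact degree_le_natDegree.trans_lt (by exact_mod_cast hd1)
  have hn : (X ^ (2 * j + 3) + (C 12 * X ^ (2 * j + 2) + C 36 * X ^ (2 * j + 1) - C 6) :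
      ℤ[X]).natDegree = 2 * j + 3 := by
    rw [natDegree_add_eq_left_of_natDegree_lt (by rw [natDegree_X_pow]; exact hd1),
      natDegree_X_pow]
  have h := eis Nat.prime_three hm (by rw [hn]; omega) (by
    intro n hlt
    rw [hn] at hlt
    rw [coeff_add, coeff_X_pow, if_neg (by omega), coeff_sub, coeff_add, coeff_C_mul,
      coeff_C_mul, coeff_X_pow, coeff_X_pow, coeff_C]
    split_ifs <;> norm_num) (by
    rw [coeff_add, coeff_X_pow, if_neg (by omega), coeff_sub, coeff_add, coeff_C_mul,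
      coeff_C_mul, coeff_X_pow, coeff_X_pow, coeff_C, if_neg (by omega), if_neg (by omega)]
    norm_num)
  have hdeg : (C (-6) * X ^ (2 * j + 3) + C 36 * X ^ 2 + C 12 * X ^ 1 +
      C 1 * X ^ 0 : ℚ[X]).natDegree = 2 * j + 3 := by
    have h1 : (C 36 * X ^ 2 + C 12 * X ^ 1 + C 1 * X ^ 0 : ℚ[X]).natDegree < 2 * j + 3 := by
      have : (C 36 * X ^ 2 + C 12 * X ^ 1 + C 1 * X ^ 0 : ℚ[X]).natDegree ≤ 2 := by
        compute_degree
      omega
    have h2 : (C (-6) * X ^ (2 * j + 3) : ℚ[X]).natDegree = 2 * j + 3 :=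
      natDegree_C_mul_X_pow _ _ (by norm_num)
    rw [add_assoc, add_assoc, ← add_assoc (C 36 * X ^ 2),
      natDegree_add_eq_left_of_natDegree_lt (by rw [h2]; exact h1), h2]
  apply irr_of_reverse
  · simp
  · have e : (C (-6) * X ^ (2 * j + 3) + C 36 * X ^ 2 + C 12 * X ^ 1 +
        C 1 * X ^ 0 : ℚ[X]).reverse =
        (X ^ (2 * j + 3) + (C 12 * X ^ (2 * j + 2) + C 36 * X ^ (2 * j + 1) - C 6) :
          ℤ[X]).map (Int.castRingHom ℚ) := by
      rw [reverse, hdeg, reflect_add, reflect_add, reflect_add, reflect_C_mul_X_pow,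
        reflect_C_mul_X_pow, reflect_C_mul_X_pow, reflect_C_mul_X_pow, revAt_le le_rfl,
        revAt_le (by omega), revAt_le (by omega), revAt_le (by omega), Nat.sub_self, Nat.sub_zero,
        show 2 * j + 3 - 2 = 2 * j + 1 by omega, show 2 * j + 3 - 1 = 2 * j + 2 by omega]
      simp only [Polynomial.map_sub, Polynomial.map_add, Polynomial.map_mul, Polynomial.map_pow,
        map_X, map_C]
      norm_num
      ring
    rw [e]
    exact h

theorem explicitQ {k' K F : Type} [Field k'] [Algebra ℚ k'] [Field K] [Algebra ℚ[X] K]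
    [Field F] [Algebra k'[X] F] [IsFractionRing k'[X] F] [Algebra K F] (hT : IsTower ℚ k' K F)
    (j : ℕ) : TateAtTwo (F := F) k' (crvT (algebraMap ℚ[X] K 2)
      (algebraMap ℚ[X] K (6 * X * (X ^ (2 * j + 2) - 6 * X - 2)))) := by
  have e2 : (2 : ℚ[X]) = C 2 := rfl
  have e6 : (6 : ℚ[X]) = C 6 := rfl
  have hg : ∀ {f : ℚ[X]}, Irreducible f → Good f := fun h => ⟨h, h.separable⟩
  have g1 : Good (6 * X : ℚ[X]) := by
    apply hg
    rw [e6]
    have h1 : (C (6 : ℚ)) * X = C 6 * X := rfl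
    exact (irreducible_isUnit_mul (isUnit_C.2 (isUnit_iff_ne_zero.2 (by norm_num)))).2
      irreducible_X
  have g2 : Good (X ^ (2 * j + 2) - 6 * X - 2 : ℚ[X]) := by
    apply hg
    rw [e6, e2]
    exact irr_B j
  have hd : (2 : ℚ[X]) ^ 2 - 4 * (6 * X * (X ^ (2 * j + 2) - 6 * X - 2)) =
      C 4 * (C (-6) * X ^ (2 * j + 3) + C 36 * X ^ 2 + C 12 * X ^ 1 + C 1 * X ^ 0) ^
        (2 * 0 + 1) := by
    have e3 : (C 4 : ℚ[X]) = 4 := rfl
    have e4 : (C (-6) : ℚ[X]) = -6 := by rw [C_neg]; rfl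
    have e5 : (C 36 : ℚ[X]) = 36 := rfl
    have e7 : (C 12 : ℚ[X]) = 12 := rfl
    rw [e3, e4, e5, e7, C_1]
    ring
  have hdeg : (C (-6) * X ^ (2 * j + 3) + C 36 * X ^ 2 + C 12 * X ^ 1 +
      C 1 * X ^ 0 : ℚ[X]).natDegree = 2 * j + 3 := by
    have h1 : (C 36 * X ^ 2 + C 12 * X ^ 1 + C 1 * X ^ 0 : ℚ[X]).natDegree < 2 * j + 3 := by
      have : (C 36 * X ^ 2 + C 12 * X ^ 1 + C 1 * X ^ 0 : ℚ[X]).natDegree ≤ 2 := by
        compute_degree
      omega
    have h2 : (C (-6) * X ^ (2 * j + 3) : ℚ[X]).natDegree = 2 * j + 3 :=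
      natDegree_C_mul_X_pow _ _ (by norm_num)
    rw [add_assoc, add_assoc, ← add_assoc (C 36 * X ^ 2),
      natDegree_add_eq_left_of_natDegree_lt (by rw [h2]; exact h1), h2]
  refine sides hT (by norm_num) (Or.inr (Or.inl ⟨6 * X, X ^ (2 * j + 2) - 6 * X - 2,
    X ^ (j + 1), g1, g2, rfl, by ring⟩)) (Or.inl ⟨4, _, 0, by norm_num, hg (irr_D j), hd⟩)
    (Or.inl ?_) (Or.inl ?_)
  · rw [natDegree_mul g1.1.ne_zero g2.1.ne_zero]
    have h1 : (6 * X : ℚ[X]).natDegree = 1 := by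
      rw [e6]
      exact natDegree_C_mul_X _ (by norm_num)
    have h2 : (X ^ (2 * j + 2) - 6 * X - 2 : ℚ[X]).natDegree = 2 * j + 2 := by
      have h3 : (C 6 * X + C 2 : ℚ[X]).natDegree < 2 * j + 2 := by
        have : (C 6 * X + C 2 : ℚ[X]).natDegree ≤ 1 := by compute_degree
        omega
      rw [sub_sub, e6, e2, natDegree_sub_eq_left_of_natDegree_lt
        (by rw [natDegree_X_pow]; exact h3), natDegree_X_pow]
    rw [h1, h2]
    exact ⟨j + 1, by ring⟩
  · rw [hd, natDegree_C_mul (by norm_num), natDegree_pow, hdeg]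
    exact ⟨j + 1, by ring⟩

/-- composition with a power -/
theorem comp_irr_gen {K : Type} [Field K] {f : K[X]} {n : ℕ} (hm : f.Monic) (hf : Irreducible f)
    (h : ∀ q : ℕ, q.Prime → ∀ c : K, c ^ q ≠ f.coeff 0 ∧ c ^ q ≠ -f.coeff 0) (hn : Odd n) :
    Irreducible (f.comp (X ^ n)) := by
  apply Polynomial.irreducible_comp hm (monic_X_pow n) hf
  intro E _ _ x hx
  rw [Polynomial.map_pow, map_X]
  apply X_pow_sub_C_irreducible_of_odd hn
  intro q hq _ b hb
  have hint : IsIntegral K x := by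
    by_contra h
    exact hm.ne_zero (by rw [← hx, minpoly.eq_zero h])
  have h1 := Algebra.PowerBasis.norm_gen_eq_coeff_zero_minpoly
    (IntermediateField.adjoin.powerBasis hint)
  rw [IntermediateField.adjoin.powerBasis_gen, IntermediateField.minpoly_gen, hx] at h1
  have h2 := congrArg (Algebra.norm K) hb
  rw [map_pow, h1] at h2
  rcases neg_one_pow_eq_or K (IntermediateField.adjoin.powerBasis hint).dim with h3 | h3
  · rw [h3, one_mul] at h2
    exact (h q hq _).1 h2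
  · rw [h3, neg_one_mul] at h2
    exact (h q hq _).2 h2

theorem not_pow {r : ℚ} {p q : ℕ} [Fact p.Prime] (hv : padicValRat p r = 1) (hq : q.Prime)
    (b : ℚ) : b ^ q ≠ r := by
  intro hb
  have h1 : padicValRat p (b ^ q) = q * padicValRat p b := padicValRat.pow _
  rw [hb, hv] at h1
  have h2 : (q : ℤ) ∣ 1 := ⟨_, h1⟩
  have h3 : q ∣ 1 := by exact_mod_cast h2
  exact hq.one_lt.ne' (Nat.dvd_one.1 h3)

theorem binom_irr {r : ℚ} {p n : ℕ} [Fact p.Prime] (hv : padicValRat p r = 1) (hn : Odd n) :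
    Irreducible (X ^ n - C r : ℚ[X]) :=
  X_pow_sub_C_irreducible_of_odd hn fun _ hq _ b => not_pow hv hq b

theorem comp_irr {f : ℚ[X]} {p n : ℕ} [Fact p.Prime] (hm : f.Monic) (hf : Irreducible f)
    (hv : padicValRat p (f.coeff 0) = 1) (hn : Odd n) : Irreducible (f.comp (X ^ n)) :=
  comp_irr_gen hm hf (fun _ hq c => ⟨not_pow hv hq c, not_pow (by rw [padicValRat.neg, hv]) hq c⟩)
    hn

theorem pv {p : ℕ} [hp : Fact p.Prime] {a b : ℤ} (hb : ¬ (p : ℤ) ∣ b) (ha : ¬ (p : ℤ) ∣ a) :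
    padicValRat p ((p * a : ℚ) / b) = 1 := by
  have hp0 : (p : ℚ) ≠ 0 := by exact_mod_cast hp.out.ne_zero
  have ha0 : (a : ℚ) ≠ 0 := by
    intro h
    apply ha
    have : a = 0 := by exact_mod_cast h
    rw [this]; exact dvd_zero _
  have hb0 : (b : ℚ) ≠ 0 := by
    intro h
    apply hb
    have : b = 0 := by exact_mod_cast h
    rw [this]; exact dvd_zero _
  rw [padicValRat.div (mul_ne_zero hp0 ha0) hb0, padicValRat.mul hp0 ha0, padicValRat.self hp.out.one_lt,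
    padicValRat.of_int, padicValRat.of_int, padicValInt.eq_zero_of_not_dvd ha,
    padicValInt.eq_zero_of_not_dvd hb]
  norm_num

theorem cubic_root (r : ℚ) : r ^ 3 + 3 / 4 * r ^ 2 - 4 * r - 73 / 16 ≠ 0 := by
  intro h
  have hr := Rat.num_div_den r
  have hd0 : (r.den : ℚ) ≠ 0 := by exact_mod_cast r.den_ne_zero
  have h1 : 16 * (r.num : ℚ) ^ 3 + 12 * (r.num : ℚ) ^ 2 * r.den - 64 * (r.num : ℚ) * (r.den : ℚ) ^ 2
      - 73 * (r.den : ℚ) ^ 3 = 0 := by
    rw [← hr] at h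
    field_simp at h
    linear_combination h / 4
  have h2 : 16 * r.num ^ 3 + 12 * r.num ^ 2 * (r.den : ℤ) - 64 * r.num * (r.den : ℤ) ^ 2
      - 73 * (r.den : ℤ) ^ 3 = 0 := by exact_mod_cast h1
  have h3 := congrArg (Int.cast : ℤ → ZMod 3) h2
  push_cast at h3
  have key : ∀ m n : ZMod 3, 16 * m ^ 3 + 12 * m ^ 2 * n - 64 * m * n ^ 2 - 73 * n ^ 3 = 0 →
      m = 0 ∧ n = 0 := by decide
  obtain ⟨h4, h5⟩ := key _ _ h3
  have h6 : (3 : ℤ) ∣ r.num := (ZMod.intCast_zmod_eq_zero_iff_dvd _ 3).1 h4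
  have h7 : 3 ∣ r.den := (ZMod.natCast_eq_zero_iff _ 3).1 h5
  have h8 : 3 ∣ r.num.natAbs := Int.natCast_dvd.1 (by exact_mod_cast h6)
  have h9 := Nat.dvd_gcd h8 h7
  rw [r.reduced] at h9
  exact absurd h9 (by norm_num)

/-- the cubic polynomial of the second example -/
noncomputable def cub : ℚ[X] := X ^ 3 + (C (3 / 4) * X ^ 2 - C 4 * X - C (73 / 16))

theorem cub_low : (C (3 / 4) * X ^ 2 - C 4 * X - C (73 / 16) : ℚ[X]).natDegree < 3 := by
  have : (C (3 / 4) * X ^ 2 - C 4 * X - C (73 / 16) : ℚ[X]).natDegree ≤ 2 := by compute_degree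
  omega

theorem cub_monic : cub.Monic := by
  refine (monic_X_pow _).add_of_left ?_
  rw [degree_X_pow]
  exact degree_le_natDegree.trans_lt (by exact_mod_cast cub_low)

theorem cub_deg : cub.natDegree = 3 := by
  rw [cub, natDegree_add_eq_left_of_natDegree_lt (by rw [natDegree_X_pow]; exact cub_low),
    natDegree_X_pow]

theorem cub_irr : Irreducible cub := by
  rw [cub_monic.irreducible_iff_roots_eq_zero_of_degree_le_three (by rw [cub_deg]; norm_num)
    (by rw [cub_deg])]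
  refine Multiset.eq_zero_of_forall_notMem fun r hr => ?_
  have h1 := isRoot_of_mem_roots hr
  rw [IsRoot.def, cub] at h1
  simp only [eval_add, eval_sub, eval_mul, eval_pow, eval_X, eval_C] at h1
  exact cubic_root r (by linear_combination h1)

theorem cub_zero : cub.coeff 0 = ((73 : ℕ) * (-1 : ℤ) : ℚ) / (16 : ℤ) := by
  rw [coeff_zero_eq_eval_zero, cub]
  simp only [eval_add, eval_sub, eval_mul, eval_pow, eval_X, eval_C]
  norm_num

theorem explicit3 {k' K F : Type} [Field k'] [Algebra ℚ k'] [Field K] [Algebra ℚ[X] K]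
    [Field F] [Algebra k'[X] F] [IsFractionRing k'[X] F] [Algebra K F] (hT : IsTower ℚ k' K F)
    {n : ℕ} (hn : Odd n) : TateAtTwo (F := F) k' (crvT (algebraMap ℚ[X] K 5)
      (algebraMap ℚ[X] K ((4 * X ^ n + 3) * ((X ^ n - 2) * (X ^ n + 2))))) := by
  have hn0 : n ≠ 0 := by
    rintro rfl
    exact absurd hn (by decide)
  have hg : ∀ {f : ℚ[X]}, Irreducible f → Good f := fun h => ⟨h, h.separable⟩
  haveI : Fact (Nat.Prime 73) := ⟨by norm_num⟩
  have c4 : (C 4 : ℚ[X]) = 4 := rfl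
  have c2 : (C 2 : ℚ[X]) = 2 := rfl
  have c3 : (C 3 : ℚ[X]) = 3 := rfl
  have e1 : (4 * X ^ n + 3 : ℚ[X]) = C 4 * (X ^ n - C (-3 / 4)) := by
    have : (C 4 * C (-3 / 4) : ℚ[X]) = -3 := by
      rw [← C_mul, show (4 : ℚ) * (-3 / 4) = -3 by norm_num, C_neg, c3]
    rw [mul_sub, this, c4]
    ring
  have e3 : (X ^ n + 2 : ℚ[X]) = X ^ n - C (-2) := by
    rw [C_neg, c2, sub_neg_eq_add]
  have g1 : Good (4 * X ^ n + 3 : ℚ[X]) := by
    apply hg
    rw [e1]
    refine (irreducible_isUnit_mul (isUnit_C.2 (isUnit_iff_ne_zero.2 (by norm_num)))).2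
      (binom_irr (p := 3) ?_ hn)
    have h1 := pv (p := 3) (a := -1) (b := 4) (by norm_num) (by norm_num)
    have h2 : ((-3 : ℚ) / 4) = (((3 : ℕ) : ℚ) * ((-1 : ℤ) : ℚ)) / ((4 : ℤ) : ℚ) := by norm_num
    rw [h2]
    exact h1
  have g2 : Good (X ^ n - 2 : ℚ[X]) := by
    apply hg
    rw [← c2]
    refine binom_irr (p := 2) ?_ hn
    have h1 := pv (p := 2) (a := 1) (b := 1) (by norm_num) (by norm_num)
    have h2 : (2 : ℚ) = (((2 : ℕ) : ℚ) * ((1 : ℤ) : ℚ)) / ((1 : ℤ) : ℚ) := by norm_num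
    rw [h2]
    exact h1
  have g3 : Good (X ^ n + 2 : ℚ[X]) := by
    apply hg
    rw [e3]
    refine binom_irr (p := 2) ?_ hn
    have h1 := pv (p := 2) (a := -1) (b := 1) (by norm_num) (by norm_num)
    have h2 : (-2 : ℚ) = (((2 : ℕ) : ℚ) * ((-1 : ℤ) : ℚ)) / ((1 : ℤ) : ℚ) := by norm_num
    rw [h2]
    exact h1
  have gD : Good (cub.comp (X ^ n)) := by
    apply hg
    refine comp_irr (p := 73) cub_monic cub_irr ?_ hn
    rw [cub_zero]
    exact pv (by norm_num) (by norm_num)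
  have hd : (5 : ℚ[X]) ^ 2 - 4 * ((4 * X ^ n + 3) * ((X ^ n - 2) * (X ^ n + 2))) =
      C (-16) * (cub.comp (X ^ n)) ^ (2 * 0 + 1) := by
    have h1 : cub.comp (X ^ n) = (X ^ n) ^ 3 + (C (3 / 4) * (X ^ n) ^ 2 - C 4 * X ^ n -
        C (73 / 16)) := by
      simp [cub]
    have k1 : (C (-16) * C (3 / 4) : ℚ[X]) = -12 := by
      rw [← C_mul, show (-16 : ℚ) * (3 / 4) = -12 by norm_num, C_neg]
      rfl
    have k2 : (C (-16) * C (73 / 16) : ℚ[X]) = -73 := by
      rw [← C_mul, show (-16 : ℚ) * (73 / 16) = -73 by norm_num, C_neg]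
      rfl
    have k3 : (C (-16) : ℚ[X]) = -16 := by rw [C_neg]; rfl
    rw [h1, c4]
    rw [k3] at k1 k2 ⊢
    linear_combination (-((X : ℚ[X]) ^ n) ^ 2) * k1 + k2
  have d1 : (4 * X ^ n + 3 : ℚ[X]).natDegree = n := by
    rw [e1, natDegree_C_mul (by norm_num), natDegree_X_pow_sub_C]
  have d2 : (X ^ n - 2 : ℚ[X]).natDegree = n := by
    rw [← c2, natDegree_X_pow_sub_C]
  have d3 : (X ^ n + 2 : ℚ[X]).natDegree = n := by
    rw [e3, natDegree_X_pow_sub_C]
  refine sides hT (by norm_num) (Or.inr (Or.inr ⟨4 * X ^ n + 3, X ^ n - 2, X ^ n + 2,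
    X ^ n + 2, 2 * X ^ n + 3, 2 * X ^ n - 1, g1, g2, g3, rfl, by ring, by ring, by ring⟩))
    (Or.inl ⟨-16, _, 0, by norm_num, gD, hd⟩) (Or.inl ?_) (Or.inl ?_)
  · rw [natDegree_mul g1.1.ne_zero (mul_ne_zero g2.1.ne_zero g3.1.ne_zero),
      natDegree_mul g2.1.ne_zero g3.1.ne_zero, d1, d2, d3]
    obtain ⟨m, rfl⟩ := hn
    exact ⟨3 * m + 1, by ring⟩
  · rw [hd, natDegree_C_mul (by norm_num), natDegree_pow, natDegree_comp, cub_deg,
      natDegree_X_pow]
    obtain ⟨m, rfl⟩ := hn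
    exact ⟨3 * m + 1, by ring⟩

end explicit

/-- `p` has odd degree, or it is neither a constant times a square nor a constant times a norm
from a quadratic extension. -/
def Admissible {k : Type} [Field k] (p : k[X]) : Prop := Odd p.natDegree ∨ NotNorm p

/-- The Tate conjecture at 2 for the surface `y ^ 2 = x (x ^ 2 + a x + b)`. -/
def Tate {k : Type} [Field k] (k' K F : Type) [Field k'] [Algebra k k'] [Field K]
    [Algebra k[X] K] [Field F] [Algebra k'[X] F] [IsFractionRing k'[X] F] [Algebra K F]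
    (a b : k[X]) : Prop :=
  TateAtTwo (F := F) k' (crvT (algebraMap k[X] K a) (algebraMap k[X] K b))

/-- (1) the criterion -/
def PartOne : Prop :=
  ∀ (k k' K F : Type) [Field k] [Field k'] [Algebra k k'] [Field K] [Algebra k[X] K]
    [Field F] [Algebra k'[X] F] [IsFractionRing k'[X] F] [Algebra K F],
    IsTower k k' K F → (2 : k) ≠ 0 → ∀ a b : k[X], b ≠ 0 → a ^ 2 - 4 * b ≠ 0 →
    Admissible b → Admissible (a ^ 2 - 4 * b) →
    (∀ π : k[X], Irreducible π → π ∣ b * (a ^ 2 - 4 * b) → π.Separable) →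
    HasPoints a b → HasPoints (-2 * a) (a ^ 2 - 4 * b) → Tate k' K F a b

/-- (2) up to three irreducible factors on both sides -/
def PartTwo : Prop :=
  ∀ (k k' K F : Type) [Field k] [Field k'] [Algebra k k'] [Field K] [Algebra k[X] K]
    [Field F] [Algebra k'[X] F] [IsFractionRing k'[X] F] [Algebra K F],
    IsTower k k' K F → (2 : k) ≠ 0 → ∀ a b : k[X],
    Admissible b → Admissible (a ^ 2 - 4 * b) →
    Side a b → Side (-2 * a) (a ^ 2 - 4 * b) → Tate k' K F a b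

/-- (3) the families of polynomials -/
def PartThree : Prop :=
  ∀ (k : Type) [Field k],
    (∀ A₁ A₂ s : k[X], Good A₁ → Good A₂ → Side (s ^ 2 - A₁ - A₂) (A₁ * A₂)) ∧
    ((2 : k) ≠ 0 → ∀ A₁ A₂ A₃ : k[X], Good A₁ → Good A₂ → Good A₃ →
      Side (aThree A₁ A₂ A₃) (A₁ * (A₂ * A₃))) ∧
    ((2 : k) ≠ 0 → ∀ u₁ u₂ u₃ u₄ A B D₁ D₂ s a : k[X], TwoTwo u₁ u₂ u₃ u₄ A B D₁ D₂ s a →
      Good A → Good B → Good D₁ → Good D₂ →
      Side a (A * B) ∧ Side (-2 * a) (a ^ 2 - 4 * (A * B)))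

/-- (4) the examples over the rational numbers -/
def PartFour : Prop :=
  ∀ (k' K F : Type) [Field k'] [Algebra ℚ k'] [Field K] [Algebra ℚ[X] K]
    [Field F] [Algebra k'[X] F] [IsFractionRing k'[X] F] [Algebra K F],
    IsTower ℚ k' K F →
    (∀ j : ℕ, Tate k' K F (2 : ℚ[X]) (6 * X * (X ^ (2 * j + 2) - 6 * X - 2))) ∧
    ∀ n : ℕ, Odd n → Tate k' K F (5 : ℚ[X]) ((4 * X ^ n + 3) * ((X ^ n - 2) * (X ^ n + 2)))

/-- **The Tate conjecture at 2 for surfaces with several irreducible factors** -/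
theorem result : PartOne ∧ PartTwo ∧ PartThree ∧ PartFour := by
  refine ⟨?_, ?_, ?_, ?_⟩
  · intro k k' K F _ _ _ _ _ _ _ _ _ hT h2 a b hb hd hNb hNd hsep hA hB
    exact criterion hT h2 hb hd hsep hNb hNd hA hB
  · intro k k' K F _ _ _ _ _ _ _ _ _ hT h2 a b hNb hNd hA hB
    exact sides hT h2 hA hB hNb hNd
  · intro k _
    refine ⟨fun A₁ A₂ s h₁ h₂ => Or.inr (Or.inl ⟨A₁, A₂, s, h₁, h₂, rfl, by ring⟩), ?_, ?_⟩
    · intro h2 A₁ A₂ A₃ h₁ h₂ h₃
      exact side_three h2 h₁ h₂ h₃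
    · intro h2 u₁ u₂ u₃ u₄ A B D₁ D₂ s a h gA gB g₁ g₂
      exact side_two_two h2 h gA gB g₁ g₂
  · intro k' K F _ _ _ _ _ _ _ _ hT
    exact ⟨fun j => explicitQ hT j, fun n hn => explicit3 hT hn⟩

end Pool.Agent.Results.MP_89bcae_ag.SeveralFactors
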