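import Pool.Agent.V11286.RL.Trans
import Pool.Agent.Results.MP_89bcae_ag.SuperellipticSurfaces

/-!
# The Tate conjecture over number fields, simultaneously for the surfaces given by all the translates of `D`

Let `ℓ` be an odd prime, `k₀` a number field, `O₀` its ring of integers, `n ≥ 3` prime to `ℓ`, and let `b 1, …, b n` be
polynomials over `O₀` with all the differences of the same degree `N ≥ 1` and the product of the differences squarefree
over `k₀`. Let `k` be a finite extension of `k₀` which contains the roots of unity of order `ℓ`, and let `X_D` be the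
surface `y ^ ℓ = D(t) (x - b 1(t)) ⋯ (x - b n(t))`.

For every `r` and `η > 0` there is a nonzero ideal `M` of `O₀` such that for all large `m` with `m` and `m + n N` not
divisible by `ℓ`, and for ALL `c_1, …, c_r` in `O₀` and all polynomials `E_1, …, E_r` over `O₀` of degree less than `m`,
however large: for at least the proportion `1 - η` of the monic polynomials `P` of degree `m` over `O₀ / M`, for every
monic `D` over `O₀` congruent to `P` modulo `M`, ALL the surfaces `X_D'`, `D' = D(t + c_i) + E_i(t)`, have the properties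
of the theorem in `SuperellipticSurfaces`: the Tate conjecture at `ℓ` over `k` (and, by property 4, at all primes), rank
zero of the Jacobian of the generic fibre over `k(t)`, and no everywhere locally trivial classes of order a power of `ℓ`.
For example there are arithmetic progressions `D, D + E, D + 2 E, …, D + (r - 1) E` of any length and with any difference
`E` of this kind, and cubes `D + ε_1 E_1 + ⋯ + ε_s E_s`, `ε_i = 0, 1`.
-/

set_option autoImplicit false

namespace Pool.Agent.Results.MP_89bcae_ag.TranslatesOfSurfaces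

open Polynomial Filter NumberField Pool.Agent.V11286.RL
open Pool.Agent.Results.MP_89bcae_ag.SuperellipticSurfaces
open Pool.Agent.TH115.GD (IsTower)

section
variable {k₀ : Type} [Field k₀] [NumberField k₀] {k : Type} [Field k] [NumberField k] [Algebra k₀ k] (ℓ : ℕ)
  (k' K F : Type) [Field k'] [Field K] [Algebra k[X] K] [IsFractionRing k[X] K] [Field F] [Algebra k'[X] F]
  [IsFractionRing k'[X] F] [Algebra K F] {n : ℕ} (N : ℕ) (b : Fin n → (𝓞 k₀)[X])

/-- The monic polynomials `P` of degree `m` over `O₀ / M` such that for all monic polynomials `D` over `O₀` congruent to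
`P` modulo `M` all the polynomials `D(t + c_i) + E_i` have the properties 1, 2, 3, 4 of `SuperellipticSurfaces`. -/
def goodClassesAll (M : Ideal (𝓞 k₀)) (m : ℕ) {r : ℕ} (c : Fin r → 𝓞 k₀) (E : Fin r → (𝓞 k₀)[X]) :
    Set (𝓞 k₀ ⧸ M)[X] :=
  {P | P.Monic ∧ P.natDegree = m ∧ ∀ D : (𝓞 k₀)[X], D.Monic →
    D.map (Ideal.Quotient.mk M) = P → ∀ i, HasProperties (k := k) ℓ k' K F N b (D.comp (X + C (c i)) + E i)}

end

/-- **Theorem.** -/
theorem result {ℓ : ℕ} (hℓ : ℓ.Prime) (hℓ2 : ℓ ≠ 2) {k₀ k : Type} [Field k₀] [NumberField k₀]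
    [Field k] [NumberField k] [Algebra k₀ k] {ζ : k} (hζ : IsPrimitiveRoot ζ ℓ) {n : ℕ}
    (hn : ¬ ℓ ∣ n) (hn3 : 3 ≤ n) {N : ℕ} (hN : 1 ≤ N) (b : Fin n → (𝓞 k₀)[X])
    (hb : ∀ i j, i ≠ j → (b i - b j).natDegree = N)
    (hs : Squarefree ((differences b).map (algebraMap (𝓞 k₀) k₀)))
    (k' K F : Type) [Field k'] [Algebra k k'] [Field K] [Algebra k[X] K] [IsFractionRing k[X] K]
    [Field F] [Algebra k'[X] F] [IsFractionRing k'[X] F] [Algebra K F] (hT : IsTower k k' K F)
    (r : ℕ) (η : ℝ) (hη : 0 < η) :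
    ∃ M : Ideal (𝓞 k₀), M ≠ ⊥ ∧ ∀ᶠ m : ℕ in atTop, ¬ ℓ ∣ m → ¬ ℓ ∣ m + n * N →
      ∀ (c : Fin r → 𝓞 k₀) (E : Fin r → (𝓞 k₀)[X]), (∀ i, (E i).degree < m) →
      (1 - η) * (Nat.card (𝓞 k₀ ⧸ M) : ℝ) ^ m ≤
        ((goodClassesAll (k := k) ℓ k' K F N b M m c E).ncard : ℝ) := by
  obtain ⟨η', hη'⟩ : ∃ η' : ℝ, η' = min η (1 / 2) / (r + 1) := ⟨_, rfl⟩
  have hr1 : (0 : ℝ) < (r : ℝ) + 1 := by positivity
  have hmin : 0 < min η (1 / 2) := lt_min hη (by norm_num)
  have hη0 : 0 < η' := by rw [hη']; positivity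
  have hη1 : η' < 1 := by
    rw [hη', div_lt_one hr1]
    have h1 : min η (1 / 2) ≤ 1 / 2 := min_le_right _ _
    have h2 : (0 : ℝ) ≤ r := Nat.cast_nonneg r
    linarith
  have hηr : r * η' ≤ η := by
    rw [hη', ← mul_div_assoc, div_le_iff₀ hr1]
    have h1 : min η (1 / 2) ≤ η := min_le_left _ _
    have h2 : (0 : ℝ) ≤ r := Nat.cast_nonneg r
    nlinarith
  obtain ⟨M, hM, h⟩ := SuperellipticSurfaces.result hℓ hℓ2 hζ hn hn3 hN b hb hs k' K F hT η' hη0
  refine ⟨M, hM, ?_⟩
  filter_upwards [h] with m hm h1 h2 c E hE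
  have h3 := hm h1 h2
  have hfin : Finite (𝓞 k₀ ⧸ M) := Ideal.finiteQuotientOfFreeOfNeBot M hM
  have hMt : M ≠ ⊤ := by
    intro htop
    have hsub : Subsingleton (𝓞 k₀ ⧸ M) := Ideal.Quotient.subsingleton_iff.2 htop
    have h4 : goodClasses (k := k) ℓ k' K F N b M m = ∅ := by
      rw [Set.eq_empty_iff_forall_notMem]
      rintro P ⟨-, h5, -⟩
      have h6 : P = 0 := Subsingleton.elim _ _
      rw [h6, natDegree_zero] at h5
      apply h1
      rw [← h5]
      exact dvd_zero ℓ
    rw [h4, Set.ncard_empty, Nat.cast_zero] at h3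
    have h7 : 0 < Nat.card (𝓞 k₀ ⧸ M) := Nat.card_pos
    have h8 : 0 < (1 - η') * (Nat.card (𝓞 k₀ ⧸ M) : ℝ) ^ m := mul_pos (by linarith) (by positivity)
    linarith
  have h5 := simul hMt hfin (fun D => HasProperties (k := k) ℓ k' K F N b D) h3 c E hE
  refine le_trans ?_ h5
  apply mul_le_mul_of_nonneg_right _ (by positivity)
  linarith

end Pool.Agent.Results.MP_89bcae_ag.TranslatesOfSurfaces
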